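import Pool.Agent.Y392.PK.Pet

/-!
# Faithful circuit covers for weights that are multiples of an odd number `k`

For odd `k` a graph with the property `P_k` (every admissible eulerian weight with values in
`k ℤ_{≥0}` has a faithful circuit cover) contains no subdivision of the Petersen graph. With the
theorem of Alspach, Goddyn and Zhang (a bridgeless graph has `P_1` if and only if it contains no
subdivision of the Petersen graph) this determines the graphs with `P_k` for every odd `k`: they are
those with `P_1`.

Definitions: `MGraph V E` (finite graph with loops and parallel edges, `ends e` is the pair of the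
ends of the edge `e`) and `MGraph.IsCircuit` are in `Pool/Agent/H126R2/CDC/Defs.lean`. `cut G X`
(edges with exactly one end in `X`), `Eulerian G w` (every cut has even weight), `Admissible G w`
(in every cut every edge has at most the weight of the others), `Subdiv G` (a subdivision of the
Petersen graph in `G`) and `Subdiv.weight` are in `Pool/Agent/Y392/PK/Sub.lean`, `HasCover G w`
(faithful circuit cover) in `Pool/Agent/Y392/PK/NoCover.lean` and `PropertyP G k` in
`Pool/Agent/Y392/PK/Pet.lean`.
-/

set_option autoImplicit false

namespace Pool.Agent.Results.MP_3c540c_co.OddMultiples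

open Pool.Agent.H126R2.CDC (MGraph)
open Pool.Agent.Y392.PK

/-- (1) For odd `k`, a graph with property `P_k` contains no subdivision of the Petersen graph.
(2) More precisely, for every subdivision `S` of the Petersen graph in `G` and every odd `c` the
following weight is eulerian and admissible and has no faithful circuit cover: `c` or `2 c` on the
edges of the paths of `S`, and `0` on all other edges of `G` (the paths with value `2 c` are those of
a perfect matching of the Petersen graph). -/
theorem result :
    (∀ (k : ℕ), Odd k → ∀ (V E : Type) [Fintype V] [DecidableEq V] [Fintype E] [DecidableEq E]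
      (G : MGraph V E), PropertyP G k → IsEmpty (Subdiv G)) ∧
    ∀ (V E : Type) [Fintype V] [DecidableEq V] [Fintype E] [DecidableEq E]
      (G : MGraph V E) (S : Subdiv G) (c : ℕ), Odd c →
      (∀ k, ∀ i < S.n k, S.weight c (S.q k i) = c * wt k) ∧
      (∀ e, (∀ k, ∀ i < S.n k, S.q k i ≠ e) → S.weight c e = 0) ∧
      (∀ e, c ∣ S.weight c e) ∧
      Eulerian G (S.weight c) ∧ Admissible G (S.weight c) ∧ ¬ HasCover G (S.weight c) := by
  refine ⟨fun k hk V E _ _ _ _ G h => ⟨fun S => not_P G S k hk h⟩, ?_⟩
  intro V E _ _ _ _ G S c hc
  refine ⟨fun k i hi => S.weight_of_mem c ((S.mem_P k _).2 ⟨i, hi, rfl⟩), fun e he => ?_,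
    S.dvd_weight c, eulerian G S c, admissible G S c, no_cover S c hc⟩
  apply S.weight_of_not_mem c
  intro k hk
  rw [S.mem_P] at hk
  obtain ⟨i, hi, h⟩ := hk
  exact he k i hi h

end Pool.Agent.Results.MP_3c540c_co.OddMultiples
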